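import Pool.Agent.Helper12K9.MW.Two

open scoped ENNReal
open Finset

namespace Pool.Agent.Helper12K9.MW

variable {V : Type} [Fintype V] (o : V) (s : V → Bool)

/-- number of vertices of the side `b` -/
noncomputable def nn (b : Bool) : ℝ := ((sd o s b).card : ℝ)

noncomputable def Dv (b : Bool) : ℝ := nn o s (!b) * (nn o s (!b) + 1) / (nn o s b + 1)

noncomputable def av (b : Bool) : ℝ := nn o s b + Dv o s b

lemma nn_nonneg (b : Bool) : 0 ≤ nn o s b := by unfold nn; positivity

lemma Dv_nonneg (b : Bool) : 0 ≤ Dv o s b := by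
  have h1 := nn_nonneg o s b
  have h2 := nn_nonneg o s (!b)
  unfold Dv; positivity

lemma av_nonneg (b : Bool) : 0 ≤ av o s b := add_nonneg (nn_nonneg o s b) (Dv_nonneg o s b)

/-- the potential with the right constants -/
noncomputable def pt (b : Bool) (u : V) (A : Finset V) : ℝ := pot o s b (av o s b) (Dv o s b) u A

open Classical in
lemma pt_eq (b : Bool) (hn : 0 < (sd o s b).card) (hM : 0 < (sd o s (!b)).card)
    (u : V) (A : Finset V) (hA : A ⊆ sd o s b) (hu : A.erase u ≠ ∅) :
    1 + ∑ y, tr (two o s) u y * pt o s b y (A.erase u) = pt o s b u A := by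
  refine pot_eq o s b _ _ hn hM ?_ ?_ u A hA hu
  · unfold av nn; ring
  · change nn o s b * Dv o s b + av o s b = nn o s b + nn o s (!b) + nn o s (!b) ^ 2
    have h1 := nn_nonneg o s b
    unfold av Dv
    field_simp
    ring

open Classical in
lemma pt_nonneg (b : Bool) (u : V) (A : Finset V) : 0 ≤ pt o s b u A := by
  unfold pt pot
  have h1 := av_nonneg o s b
  have h2 := Dv_nonneg o s b
  have h3 := hh_nonneg (A.erase u).card
  split_ifs <;> positivity

open Classical in
lemma pt_le (b : Bool) (u : V) (A : Finset V) (c : ℕ) (hc : (A.erase u).card ≤ c) :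
    pt o s b u A ≤ av o s b * hh c + nn o s (!b) + Dv o s b := by
  unfold pt pot
  have h1 := av_nonneg o s b
  have h2 := Dv_nonneg o s b
  have h4 := nn_nonneg o s (!b)
  have h3 := mul_le_mul_of_nonneg_left (hh_mono hc) h1
  have h5 : 0 ≤ av o s b * hh c := mul_nonneg h1 (hh_nonneg c)
  have h6 : ((sd o s (!b)).card : ℝ) = nn o s (!b) := rfl
  rw [h6]
  split_ifs <;> linarith

open Classical in
lemma pt_self (b : Bool) (u : V) (hu : u ∈ sd o s b) (A : Finset V) :
    pt o s b u A = av o s b * hh (A.erase u).card := by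
  unfold pt pot
  split_ifs with h
  · rw [h, Finset.card_empty, hh_zero, mul_zero]
  · ring

variable {o s}

lemma cover_upper {b : Bool} (hn : 0 < (sd o s b).card) (hM : 0 < (sd o s (!b)).card) (u : V)
    (A : Finset V) (hA : A ⊆ sd o s b) (t : ℕ) :
    ∑ i ∈ Finset.range t, miss (two o s) u A i ≤ pt o s b u A := by
  classical
  refine miss_upper (two o s) (sd o s b) (pt o s b) (pt_nonneg o s b) ?_ u A hA t
  intro u A hA hu
  exact (pt_eq o s b hn hM u A hA hu).le

lemma cover_lower {b : Bool} (hn : 0 < (sd o s b).card) (hM : 0 < (sd o s (!b)).card) (u : V)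
    (A : Finset V) (hA : A ⊆ sd o s b) :
    ENNReal.ofReal (pt o s b u A) ≤ ∑' t, ENNReal.ofReal (miss (two o s) u A t) := by
  classical
  refine le_tsum_of_partial _ (fun t => miss_nonneg _ _ _ _) _
    (av o s b * hh (Fintype.card V) + nn o s (!b) + Dv o s b) fun t => ?_
  refine miss_lower (two o s) (sd o s b) (pt o s b) _ ?_ ?_ ?_ u A hA t
  · intro u A
    exact pt_le o s b u A _ (Finset.card_le_univ _)
  · intro u A h
    unfold pt pot
    rw [if_pos h]
  · intro u A hA hu
    exact (pt_eq o s b hn hM u A hA hu).ge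

lemma cover_lower' {b : Bool} (hn : 0 < (sd o s b).card) (hM : 0 < (sd o s (!b)).card) (u : V)
    (hu : u ∈ sd o s b) :
    ENNReal.ofReal (av o s b * hh ((sd o s b).card - 1))
      ≤ ∑' t, ENNReal.ofReal (miss (two o s) u (sd o s b) t) := by
  classical
  have := cover_lower hn hM u (sd o s b) subset_rfl
  rw [pt_self o s b u hu, Finset.card_erase_of_mem hu] at this
  exact this

lemma hit_upper {b : Bool} (hn : 0 < (sd o s b).card) (hM : 0 < (sd o s (!b)).card) (u v : V)
    (hv : v ∈ sd o s b) (t : ℕ) :
    ∑ i ∈ Finset.range t, miss (two o s) u {v} i ≤ av o s b + nn o s (!b) + Dv o s b := by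
  classical
  refine (cover_upper hn hM u {v} (Finset.singleton_subset_iff.2 hv) t).trans ?_
  refine (pt_le o s b u {v} 1 ?_).trans ?_
  · exact (Finset.card_le_card (Finset.erase_subset _ _)).trans (by simp)
  · have : hh 1 = 1 := by simp [hh]
    rw [this, mul_one]

lemma hit_upper' {b : Bool} (hn : 0 < (sd o s b).card) (hM : 0 < (sd o s (!b)).card) (u v : V)
    (hu : u ∈ sd o s b) (hv : v ∈ sd o s b) (t : ℕ) :
    ∑ i ∈ Finset.range t, miss (two o s) u {v} i ≤ av o s b := by
  classical
  refine (cover_upper hn hM u {v} (Finset.singleton_subset_iff.2 hv) t).trans ?_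
  rw [pt_self o s b u hu]
  have h1 : hh (({v} : Finset V).erase u).card ≤ hh 1 :=
    hh_mono ((Finset.card_le_card (Finset.erase_subset _ _)).trans (by simp))
  have : hh 1 = 1 := by simp [hh]
  rw [this] at h1
  nlinarith [av_nonneg o s b]

open Classical in
lemma hit_o (hn : 0 < (sd o s true).card) (hM : 0 < (sd o s false).card) (u : V) (t : ℕ) :
    ∑ i ∈ Finset.range t, miss (two o s) u {o} i ≤ if u = o then 0 else nn o s (s u) := by
  have key := miss_upper (two o s) {o}
    (fun u A => if A.erase u = ∅ then 0 else nn o s (s u)) ?_ ?_ u {o} subset_rfl t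
  · refine key.trans ?_
    try beta_reduce
    have h0 := nn_nonneg o s (s u)
    by_cases h : u = o
    · subst h; simp
    · rw [if_neg h]
      split_ifs
      · exact h0
      · exact le_rfl
  · intro u A
    have h0 := nn_nonneg o s (s u)
    try beta_reduce
    split_ifs
    · exact le_rfl
    · exact h0
  · intro u A hA hu
    try beta_reduce
    rw [if_neg hu]
    have hAo : A = {o} := by
      rcases Finset.subset_singleton_iff.1 hA with h | h
      · rw [h] at hu; simp at hu
      · exact h
    subst hAo
    have huo : u ≠ o := by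
      intro h; subst h; simp at hu
    have he : ({o} : Finset V).erase u = {o} := Finset.erase_eq_of_notMem (by simpa using huo)
    rw [he]
    have hus : u ∈ sd o s (s u) := (mem_sd o s).2 ⟨huo, rfl⟩
    rw [row_side o s hus]
    have hpos : 0 < nn o s (s u) := by
      unfold nn; exact_mod_cast Finset.card_pos.2 ⟨u, hus⟩
    have h1 : ∀ y ∈ sd o s (s u), (if ({o} : Finset V).erase y = ∅ then (0 : ℝ) else nn o s (s y))
        = nn o s (s u) := by
      intro y hy
      rw [mem_sd] at hy
      rw [Finset.erase_eq_of_notMem (by simpa using hy.1), if_neg (by simp), hy.2]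
    rw [Finset.sum_congr rfl h1, h1 u hus]
    have h2 : (if ({o} : Finset V).erase o = ∅ then (0 : ℝ) else nn o s (s o)) = 0 := by
      rw [if_pos]; simp
    rw [h2]
    simp only [Finset.sum_const, nsmul_eq_mul]
    have h3 : ((sd o s (s u)).card : ℝ) = nn o s (s u) := rfl
    rw [h3]
    have : 1 + 1 / nn o s (s u) * (0 + (nn o s (s u) * nn o s (s u) - nn o s (s u)))
        = nn o s (s u) := by
      field_simp; ring
    rw [this]

/-- a walk started in the side `b` misses a given vertex of this side with probability about `1/2` -/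
lemma half {b : Bool} (hn : 2 ≤ (sd o s b).card) (hM : 0 < (sd o s (!b)).card) (v : V)
    (hv : v ∈ sd o s b) (t : ℕ) : ∀ u ∈ sd o s b, u ≠ v →
    miss (two o s) u {v} t ≤ 1 / 2 + 1 / 2 * (1 - 2 / nn o s b) ^ t := by
  classical
  have hsto := sto_two o s b (by omega) hM
  have hN : (2 : ℝ) ≤ nn o s b := by unfold nn; exact_mod_cast hn
  have hρ : 0 ≤ 1 - 2 / nn o s b := by
    rw [sub_nonneg, div_le_one (by linarith)]; exact hN
  induction t with
  | zero =>
    intro u _ _
    have := miss_le_one (two o s) hsto u {v} 0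
    simp only [pow_zero]; linarith
  | succ t ih =>
    intro u hu huv
    have he : ({v} : Finset V).erase u = {v} := Finset.erase_eq_of_notMem (by simpa using huv)
    rw [miss_succ, he, row_side o s hu]
    have h1 : miss (two o s) o {v} t ≤ 1 := miss_le_one _ hsto _ _ _
    have h2 : ∑ z ∈ sd o s b, miss (two o s) z {v} t - miss (two o s) u {v} t
        ≤ (nn o s b - 2) * (1 / 2 + 1 / 2 * (1 - 2 / nn o s b) ^ t) := by
      rw [← Finset.sum_erase_add _ _ hu, add_sub_cancel_right]
      have hv' : v ∈ (sd o s b).erase u := Finset.mem_erase.2 ⟨huv.symm, hv⟩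
      rw [← Finset.sum_erase_add _ _ hv']
      have hz : miss (two o s) v {v} t = 0 := miss_done _ _ _ (by simp) _
      rw [hz, add_zero]
      have hle : ∀ z ∈ ((sd o s b).erase u).erase v, miss (two o s) z {v} t
          ≤ 1 / 2 + 1 / 2 * (1 - 2 / nn o s b) ^ t := by
        intro z hz
        rw [Finset.mem_erase, Finset.mem_erase] at hz
        exact ih z hz.2.2 hz.1
      refine (Finset.sum_le_sum hle).trans ?_
      rw [Finset.sum_const, nsmul_eq_mul]
      have hc : ((((sd o s b).erase u).erase v).card : ℝ) = nn o s b - 2 := by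
        rw [Finset.card_erase_of_mem hv', Finset.card_erase_of_mem hu]
        unfold nn
        have : (sd o s b).card - 1 - 1 = (sd o s b).card - 2 := by omega
        rw [this, Nat.cast_sub hn]; norm_num
      rw [hc]
    have h3 : (0 : ℝ) < ((sd o s b).card : ℝ) := by
      have : (0 : ℝ) < nn o s b := by linarith
      exact this
    calc 1 / ((sd o s b).card : ℝ) * (miss (two o s) o {v} t
          + (∑ z ∈ sd o s b, miss (two o s) z {v} t - miss (two o s) u {v} t))
        ≤ 1 / ((sd o s b).card : ℝ) * (1 + (nn o s b - 2)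
            * (1 / 2 + 1 / 2 * (1 - 2 / nn o s b) ^ t)) := by
          apply mul_le_mul_of_nonneg_left _ (by positivity)
          linarith
      _ = 1 / 2 + 1 / 2 * (1 - 2 / nn o s b) ^ (t + 1) := by
          have h4 : ((sd o s b).card : ℝ) = nn o s b := rfl
          rw [h4, pow_succ]
          have h5 : nn o s b ≠ 0 := by linarith
          field_simp
          ring

end Pool.Agent.Helper12K9.MW
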