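import Mathlib

/-!
Simple random walks on a finite graph: hitting times, cover times of one walk and of `k`
independent walks.  Everything is given by finite sums over paths: the probability that `k`
independent walks follow given paths for `t` steps is the product of the transition
probabilities, and the expectation of a random time `τ` is `∑_{t ≥ 0} P(τ > t)`.
-/

open scoped ENNReal

namespace Pool.Agent.Helper12K9.MW

variable {V : Type} [Fintype V]

open Classical in
/-- Transition probability of the simple random walk on `G`: from `x` the walk moves to a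
uniformly random neighbour. -/
noncomputable def tr (G : SimpleGraph V) (x y : V) : ℝ :=
  if G.Adj x y then 1 / (((Finset.univ.filter fun z => G.Adj x z).card : ℕ) : ℝ) else 0

open Classical in
/-- Probability that the random walk started at `u` follows the path `x₀, x₁, …, x_t` during its
first `t` steps. -/
noncomputable def wt (G : SimpleGraph V) (u : V) {t : ℕ} (x : Fin (t + 1) → V) : ℝ :=
  if x 0 = u then ∏ s : Fin t, tr G (x s.castSucc) (x s.succ) else 0

open Classical in
/-- `P(τ > t)` for the cover time `τ` of `k` independent walks started at `u 0, …, u (k-1)`: the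
total weight of the `k`-tuples of paths of length `t` which together miss some vertex. -/
noncomputable def tailCover (G : SimpleGraph V) {k : ℕ} (u : Fin k → V) (t : ℕ) : ℝ :=
  ∑ X : Fin k → Fin (t + 1) → V,
    if (∀ v, ∃ i s, X i s = v) then 0 else ∏ i, wt G (u i) (X i)

/-- The expected cover time `C_{u₁,…,u_k} = E τ = ∑_{t ≥ 0} P(τ > t)`. -/
noncomputable def coverTime (G : SimpleGraph V) {k : ℕ} (u : Fin k → V) : ℝ≥0∞ :=
  ∑' t : ℕ, ENNReal.ofReal (tailCover G u t)

open Classical in
/-- `P(T_v > t)` for the hitting time `T_v` of `v` by the walk started at `u`. -/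
noncomputable def tailHit (G : SimpleGraph V) (u v : V) (t : ℕ) : ℝ :=
  ∑ x : Fin (t + 1) → V, if (∃ s, x s = v) then 0 else wt G u x

/-- The expected hitting time `h(u, v)`. -/
noncomputable def hitTime (G : SimpleGraph V) (u v : V) : ℝ≥0∞ :=
  ∑' t : ℕ, ENNReal.ofReal (tailHit G u v t)

/-- `C = max_u C_u`, the largest expected cover time of a single walk. -/
noncomputable def cmax (G : SimpleGraph V) : ℝ≥0∞ :=
  ⨆ u : V, coverTime G (fun _ : Fin 1 => u)

/-- `h_max = max_{u,v} h(u, v)`. -/
noncomputable def hmax (G : SimpleGraph V) : ℝ≥0∞ :=
  ⨆ u : V, ⨆ v : V, hitTime G u v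

/-- `H(G) = C / h_max`. -/
noncomputable def HH (G : SimpleGraph V) : ℝ := (cmax G / hmax G).toReal

end Pool.Agent.Helper12K9.MW
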