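import Pool.Agent.Helper12K9.MW.Multi

open scoped ENNReal
open Finset

namespace Pool.Agent.Helper12K9.MW

section general
variable {V : Type} [Fintype V] {o : V} {s : V → Bool}

lemma two_connected (o : V) (s : V → Bool) : (two o s).Connected := by
  have h : ∀ x, (two o s).Reachable o x := by
    intro x
    by_cases hx : x = o
    · subst hx; exact SimpleGraph.Reachable.refl _
    · exact SimpleGraph.Adj.reachable ⟨fun h => hx h.symm, Or.inl rfl⟩
  haveI : Nonempty V := ⟨o⟩
  exact SimpleGraph.Connected.mk fun x y => (h x).symm.trans (h y)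

lemma cmax_lower {b : Bool} (hn : 0 < (sd o s b).card) (hM : 0 < (sd o s (!b)).card) :
    ENNReal.ofReal (av o s b * hh ((sd o s b).card - 1)) ≤ cmax (two o s) := by
  classical
  obtain ⟨x, hx⟩ := Finset.card_pos.1 hn
  refine (cover_lower' hn hM x hx).trans ?_
  refine le_trans ?_ (le_iSup (fun u => coverTime (two o s) (fun _ : Fin 1 => u)) x)
  refine ENNReal.tsum_le_tsum fun t => ENNReal.ofReal_le_ofReal ?_
  rw [tail_one]
  exact miss_mono _ _ (Finset.subset_univ _) _

lemma cmax_ne_top (hn : 0 < (sd o s true).card) (hM : 0 < (sd o s false).card) :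
    cmax (two o s) ≠ ⊤ := by
  classical
  have key : ∀ u : V, coverTime (two o s) (fun _ : Fin 1 => u) ≤
      ENNReal.ofReal ((av o s true * hh (Fintype.card V) + nn o s false + Dv o s true)
        + (av o s false * hh (Fintype.card V) + nn o s true + Dv o s false)
        + (nn o s true + nn o s false)) := by
    intro u
    refine tsum_le_of_partial _ (fun t => tailCover_nonneg _ _ t) _ fun t => ?_
    have hU : (Finset.univ : Finset V) = (sd o s true ∪ sd o s false) ∪ {o} := by
      ext v
      simp only [Finset.mem_univ, Finset.mem_union, Finset.mem_singleton, true_iff]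
      rcases cases_V o s true v with h | h | h
      · exact Or.inl (Or.inl h)
      · exact Or.inr h
      · exact Or.inl (Or.inr h)
    have h1 : ∀ i ∈ Finset.range t, tailCover (two o s) (fun _ : Fin 1 => u) i
        ≤ miss (two o s) u (sd o s true) i + miss (two o s) u (sd o s false) i
          + miss (two o s) u {o} i := by
      intro i _
      rw [tail_one, hU]
      have h2 := miss_union (two o s) u (sd o s true ∪ sd o s false) {o} i
      have h3 := miss_union (two o s) u (sd o s true) (sd o s false) i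
      linarith
    refine (Finset.sum_le_sum h1).trans ?_
    rw [Finset.sum_add_distrib, Finset.sum_add_distrib]
    have h2 := (cover_upper (b := true) hn hM u (sd o s true) subset_rfl t).trans
      (pt_le o s true u (sd o s true) (Fintype.card V) (Finset.card_le_univ _))
    have h3 := (cover_upper (b := false) hM hn u (sd o s false) subset_rfl t).trans
      (pt_le o s false u (sd o s false) (Fintype.card V) (Finset.card_le_univ _))
    have h4 := hit_o (o := o) (s := s) hn hM u t
    have h5 : (if u = o then 0 else nn o s (s u)) ≤ nn o s true + nn o s false := by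
      have e1 := nn_nonneg o s true
      have e2 := nn_nonneg o s false
      split_ifs
      · linarith
      · cases s u <;> linarith
    have e1 : (!true) = false := rfl
    have e2 : (!false) = true := rfl
    rw [e1] at h2
    rw [e2] at h3
    linarith
  refine ne_top_of_le_ne_top ENNReal.ofReal_ne_top (iSup_le key)

lemma hmax_upper (hn : 0 < (sd o s true).card) (hM : 0 < (sd o s false).card) (R : ℝ)
    (h1 : av o s true + nn o s false + Dv o s true ≤ R)
    (h2 : av o s false + nn o s true + Dv o s false ≤ R)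
    (h3 : nn o s true ≤ R) (h4 : nn o s false ≤ R) : hmax (two o s) ≤ ENNReal.ofReal R := by
  classical
  refine iSup_le fun u => iSup_le fun v => ?_
  refine tsum_le_of_partial _ (fun t => by rw [tailHit_eq]; exact miss_nonneg _ _ _ _) _
    fun t => ?_
  rw [Finset.sum_congr rfl fun i _ => tailHit_eq _ _ _ _]
  rcases cases_V o s true v with h | h | h
  · exact (hit_upper (b := true) hn hM u v h t).trans h1
  · subst h
    refine (hit_o hn hM u t).trans ?_
    have e1 := nn_nonneg v s true
    split_ifs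
    · linarith
    · cases s u
      · exact h4
      · exact h3
  · exact (hit_upper (b := false) hM hn u v h t).trans h2

lemma hmax_ne_zero (u v : V) (h : u ≠ v) (G : SimpleGraph V) : hmax G ≠ 0 := by
  classical
  have h1 : (1 : ℝ≥0∞) ≤ hmax G := by
    refine le_trans ?_ (le_iSup_of_le u (le_iSup (fun v => hitTime G u v) v))
    refine le_trans ?_ (ENNReal.le_tsum 0)
    rw [tailHit_eq, miss_zero, if_neg]
    · simp
    · rw [Finset.erase_eq_of_notMem (by simpa using h)]
      simp
  intro h0
  rw [h0] at h1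
  exact absurd h1 (by simp)

lemma pt_le_sd (b : Bool) (u : V) :
    pt o s b u (sd o s b) ≤ av o s b * hh (sd o s b).card + nn o s (!b) + Dv o s b := by
  classical
  exact pt_le o s b u (sd o s b) _ (Finset.card_le_card (Finset.erase_subset _ _))

end general

section concrete
variable (N m : ℕ)

abbrev W := Fin (N + m + 1)

def sf (x : W N m) : Bool := decide (x.val ≤ N)

lemma card_true : (sd (0 : W N m) (sf N m) true).card = N := by
  classical
  have : sd (0 : W N m) (sf N m) true
      = (Finset.univ : Finset (Fin N)).image (fun i => (⟨i.val + 1, by omega⟩ : W N m)) := by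
    ext x
    simp only [mem_sd, sf, decide_eq_true_eq, Finset.mem_image, Finset.mem_univ, true_and]
    constructor
    · rintro ⟨h1, h2⟩
      have h3 : x.val ≠ 0 := fun h => h1 (Fin.ext h)
      exact ⟨⟨x.val - 1, by omega⟩, Fin.ext (by simp; omega)⟩
    · rintro ⟨i, rfl⟩
      refine ⟨fun h => ?_, ?_⟩
      · have := congrArg Fin.val h
        simp at this
      · show i.val + 1 ≤ N
        omega
  rw [this, Finset.card_image_of_injective, Finset.card_univ, Fintype.card_fin]
  intro i j h
  have := congrArg Fin.val h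
  simp only at this
  exact Fin.ext (by omega)

lemma card_false : (sd (0 : W N m) (sf N m) false).card = m := by
  classical
  have : sd (0 : W N m) (sf N m) false
      = (Finset.univ : Finset (Fin m)).image (fun i => (⟨N + 1 + i.val, by omega⟩ : W N m)) := by
    ext x
    simp only [mem_sd, sf, decide_eq_false_iff_not, Finset.mem_image, Finset.mem_univ, true_and]
    constructor
    · rintro ⟨h1, h2⟩
      have h3 := x.isLt
      exact ⟨⟨x.val - (N + 1), by omega⟩, Fin.ext (by simp; omega)⟩
    · rintro ⟨i, rfl⟩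
      refine ⟨fun h => ?_, ?_⟩
      · have := congrArg Fin.val h
        simp at this
      · show ¬ (N + 1 + i.val ≤ N)
        omega
  rw [this, Finset.card_image_of_injective, Finset.card_univ, Fintype.card_fin]
  intro i j h
  have := congrArg Fin.val h
  simp only at this
  exact Fin.ext (by omega)

lemma hh_sq (w : ℕ) : hh (w ^ 2) ≤ 2 * w := by
  have key : ∀ r : ℕ, hh r ≤ 2 * Real.sqrt r := by
    intro r
    induction r with
    | zero => simp [hh_zero]
    | succ r ih =>
      rw [hh_succ]
      have h1 : (0 : ℝ) ≤ r := by positivity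
      have h2 : Real.sqrt r ≤ Real.sqrt ((r + 1 : ℕ) : ℝ) :=
        Real.sqrt_le_sqrt (by push_cast; linarith)
      have h3 : Real.sqrt ((r + 1 : ℕ) : ℝ) ^ 2 = r + 1 := by
        rw [Real.sq_sqrt (by positivity)]; push_cast; ring
      have h4 : Real.sqrt r ^ 2 = r := Real.sq_sqrt h1
      have h5 : 1 ≤ Real.sqrt ((r + 1 : ℕ) : ℝ) := by
        rw [Real.one_le_sqrt]; push_cast; linarith
      have h6 : 0 ≤ Real.sqrt (r : ℝ) := Real.sqrt_nonneg _
      set A := Real.sqrt ((r + 1 : ℕ) : ℝ)
      set B := Real.sqrt (r : ℝ)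
      have h7 : 1 / ((r : ℝ) + 1) ≤ 2 * (A - B) := by
        rw [← h3, div_le_iff₀ (by positivity)]
        have h8 : (A - B) * (A + B) = 1 := by nlinarith
        have h9 : (A - B) * (2 * A ^ 2 - (A + B)) ≥ 0 := by
          apply mul_nonneg (by linarith)
          nlinarith
        nlinarith
      linarith
  have := key (w ^ 2)
  have h2 : Real.sqrt ((w ^ 2 : ℕ) : ℝ) = w := by
    push_cast
    rw [Real.sqrt_sq (by positivity)]
  rwa [h2] at this

lemma log_le_hh (r : ℕ) : Real.log (r + 1) ≤ hh r := by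
  have h1 := log_add_one_le_harmonic r
  have h2 : ((harmonic r : ℚ) : ℝ) = hh r := by
    unfold harmonic hh
    push_cast
    exact Finset.sum_congr rfl fun i _ => by rw [one_div]
  rw [h2] at h1
  exact_mod_cast h1

lemma sq_le_two_pow (j : ℕ) (hj : 4 ≤ j) : j ^ 2 ≤ 2 ^ j := by
  induction j, hj using Nat.le_induction with
  | base => norm_num
  | succ j hj ih =>
    rw [pow_succ 2 j]
    nlinarith

/-- the main estimate -/
theorem main (c K : ℝ) (hc : 0 < c) : ∃ (n : ℕ) (G : SimpleGraph (Fin n)), G.Connected ∧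
    hmax G ≠ 0 ∧ hmax G ≠ ⊤ ∧ cmax G ≠ ⊤ ∧ K ≤ HH G ∧
    ∃ (k : ℕ) (x : Fin n), 1 ≤ k ∧ (k : ℝ) ≤ 6 * HH G ∧
      ENNReal.ofReal (c * k) * coverTime G (fun _ : Fin k => x) < cmax G := by
  classical
  -- choice of j
  obtain ⟨j, hj⟩ := exists_nat_ge (max 4 (max (16 * c) (3 * K)))
  have hj4 : (4 : ℝ) ≤ j := (le_max_left _ _).trans hj
  have hjc : 16 * c ≤ j := ((le_max_left _ _).trans (le_max_right _ _)).trans hj
  have hjK : 3 * K ≤ j := ((le_max_right _ _).trans (le_max_right _ _)).trans hj
  have hj4' : 4 ≤ j := by exact_mod_cast hj4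
  set N : ℕ := 2 ^ j with hN
  have hN16 : 16 ≤ N := by
    calc 16 = 2 ^ 4 := by norm_num
      _ ≤ 2 ^ j := Nat.pow_le_pow_right (by norm_num) hj4'
  have hNr : (16 : ℝ) ≤ N := by exact_mod_cast hN16
  have hjN : (j : ℝ) ^ 2 ≤ N := by
    have := sq_le_two_pow j hj4'
    rw [← hN] at this
    exact_mod_cast this
  have hNr' : (N : ℝ) = 2 ^ j := by rw [hN]; push_cast; ring
  -- choice of t₀
  set ρ : ℝ := 1 - 2 / (N : ℝ) with hρdef
  have hρ0 : 0 ≤ ρ := by
    rw [hρdef, sub_nonneg, div_le_one (by linarith)]; linarith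
  have hρ1 : ρ < 1 := by
    have : 0 < 2 / (N : ℝ) := by positivity
    linarith
  obtain ⟨t₀, ht₀⟩ : ∃ t₀ : ℕ, (1 / 2 + 1 / 2 * ρ ^ t₀) ^ (2 * j - 1)
      ≤ 2 * (1 / 2 : ℝ) ^ (2 * j - 1) := by
    have h1 : Filter.Tendsto (fun t : ℕ => (1 / 2 + 1 / 2 * ρ ^ t) ^ (2 * j - 1)) Filter.atTop
        (nhds ((1 / 2 + 1 / 2 * 0) ^ (2 * j - 1))) :=
      (((tendsto_pow_atTop_nhds_zero_of_lt_one hρ0 hρ1).const_mul _).const_add _).pow _
    rw [mul_zero, add_zero] at h1
    have h2 : (1 / 2 : ℝ) ^ (2 * j - 1) < 2 * (1 / 2 : ℝ) ^ (2 * j - 1) := by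
      have : (0 : ℝ) < (1 / 2 : ℝ) ^ (2 * j - 1) := by positivity
      linarith
    obtain ⟨t, ht⟩ := (h1.eventually (gt_mem_nhds h2)).exists
    exact ⟨t, ht.le⟩
  -- choice of w
  set Y : ℝ := 2 * (1 + N * (N + 1)) + 2 * N + N * (N + 1) + N * t₀ with hY
  have hY0 : 0 ≤ Y := by rw [hY]; positivity
  obtain ⟨w, hw⟩ := exists_nat_gt (max (20 * ((N : ℝ) + 1)) (2 * (c * (2 * j)) * Y * (N + 1)))
  have hw1 : 20 * ((N : ℝ) + 1) < w := (le_max_left _ _).trans_lt hw
  have hw2 : 2 * (c * (2 * j)) * Y * (N + 1) < w := (le_max_right _ _).trans_lt hw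
  set m : ℕ := w ^ 2 with hm
  have hmr : (m : ℝ) = (w : ℝ) ^ 2 := by rw [hm]; push_cast; ring
  have hw0 : (1 : ℝ) ≤ w := by linarith
  have hmw : (w : ℝ) ≤ m := by rw [hmr]; exact le_self_pow₀ hw0 two_ne_zero
  have hm0 : 0 < m := by
    have : (0 : ℝ) < m := by linarith
    exact_mod_cast this
  set o : W N m := 0
  set s : W N m → Bool := sf N m
  have ct : (sd o s true).card = N := card_true N m
  have cf : (sd o s false).card = m := card_false N m
  have hn1 : 0 < (sd o s true).card := by rw [ct]; omega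
  have hM1 : 0 < (sd o s false).card := by rw [cf]; exact hm0
  have nt : nn o s true = N := by unfold nn; rw [ct]
  have nf : nn o s false = m := by unfold nn; rw [cf]
  have Dt : Dv o s true = m * (m + 1) / (N + 1) := by
    unfold Dv; rw [show (!true) = false from rfl, nt, nf]
  have Df : Dv o s false = N * (N + 1) / (m + 1) := by
    unfold Dv; rw [show (!false) = true from rfl, nt, nf]
  have hmN : 20 * ((N : ℝ) + 1) ≤ m := by linarith
  have hN1 : (0 : ℝ) < (N : ℝ) + 1 := by linarith
  have hm1 : (0 : ℝ) < (m : ℝ) + 1 := by linarith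
  -- the number a
  set a : ℝ := av o s true with ha
  have ha' : a = N + m * (m + 1) / (N + 1) := by rw [ha]; unfold av; rw [nt, Dt]
  have hD20 : 20 * (m : ℝ) ≤ m * (m + 1) / (N + 1) := by
    rw [le_div_iff₀ hN1]
    have e1 := mul_le_mul_of_nonneg_left hmN (Nat.cast_nonneg (α := ℝ) m)
    have e2 : (0 : ℝ) ≤ m := Nat.cast_nonneg m
    linarith only [e1, e2]
  have ha20 : 20 * (m : ℝ) ≤ a := by rw [ha']; linarith
  have hapos : 0 < a := by linarith
  have hDf1 : (N : ℝ) * (N + 1) / (m + 1) ≤ N := by
    rw [div_le_iff₀ hm1]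
    exact mul_le_mul_of_nonneg_left (by linarith only [hmN, hN1]) (by linarith only [hNr])
  -- hmax
  have hR : hmax (two o s) ≤ ENNReal.ofReal (2 * a + m) := by
    refine hmax_upper hn1 hM1 _ ?_ ?_ ?_ ?_
    · rw [← ha, nf, Dt]
      rw [ha']; linarith
    · unfold av; rw [nf, nt, Df]; linarith
    · rw [nt]; linarith
    · rw [nf]; linarith
  have hne0 : hmax (two o s) ≠ 0 := by
    obtain ⟨x, hx⟩ := Finset.card_pos.1 hn1
    exact hmax_ne_zero x o ((mem_sd o s).1 hx).1 _
  have hnetop : hmax (two o s) ≠ ⊤ := ne_top_of_le_ne_top ENNReal.ofReal_ne_top hR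
  have hcnetop : cmax (two o s) ≠ ⊤ := cmax_ne_top hn1 hM1
  have hclow : ENNReal.ofReal (a * hh (N - 1)) ≤ cmax (two o s) := by
    have := cmax_lower (o := o) (s := s) (b := true) hn1 hM1
    rwa [ct] at this
  have hh1 : 1 ≤ hh (N - 1) := by
    have : hh 1 ≤ hh (N - 1) := hh_mono (by omega)
    have h1 : hh 1 = 1 := by simp [hh]
    linarith
  have hhlog : (j : ℝ) * Real.log 2 ≤ hh (N - 1) := by
    have h1 := log_le_hh (N - 1)
    have h2 : ((N - 1 : ℕ) : ℝ) + 1 = 2 ^ j := by
      rw [Nat.cast_sub (by omega), hNr']; push_cast; ring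
    rw [h2, Real.log_pow] at h1
    exact h1
  have hHH : (j : ℝ) / 3 ≤ HH (two o s) := by
    have h1 : ENNReal.ofReal (a * hh (N - 1) / (2 * a + m)) ≤ cmax (two o s) / hmax (two o s) := by
      rw [ENNReal.ofReal_div_of_pos (by positivity)]
      exact ENNReal.div_le_div hclow hR
    have h2 : cmax (two o s) / hmax (two o s) ≠ ⊤ := ENNReal.div_ne_top hcnetop hne0
    have h3 : a * hh (N - 1) / (2 * a + m) ≤ HH (two o s) := by
      unfold HH
      rw [← ENNReal.ofReal_le_iff_le_toReal h2]
      exact h1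
    refine le_trans ?_ h3
    rw [le_div_iff₀ (by positivity)]
    have h4 : 2 * a + m ≤ 2.05 * a := by linarith
    have h5 := Real.log_two_gt_d9
    have h6 : (j : ℝ) / 3 * (2 * a + m) ≤ (j : ℝ) / 3 * (2.05 * a) :=
      mul_le_mul_of_nonneg_left h4 (by positivity)
    have h7 : (j : ℝ) / 3 * 2.05 ≤ hh (N - 1) := by
      have h8 : (j : ℝ) * 0.6931471803 ≤ j * Real.log 2 :=
        mul_le_mul_of_nonneg_left h5.le (by positivity)
      linarith
    have h8 := mul_le_mul_of_nonneg_left h7 hapos.le
    linarith only [h8, h6]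
  refine ⟨N + m + 1, two o s, two_connected o s, hne0, hnetop, hcnetop, by linarith,
    2 * j - 1 + 1, ?_⟩
  obtain ⟨x, hx⟩ := Finset.card_pos.1 hn1
  have hkr : ((2 * j - 1 + 1 : ℕ) : ℝ) = 2 * j := by
    have : 2 * j - 1 + 1 = 2 * j := by omega
    rw [this]; push_cast; ring
  refine ⟨x, by omega, ?_, ?_⟩
  · rw [hkr]; linarith
  · rw [hkr]
    have hup := multi_upper (o := o) (s := s) (b := true) (by rw [ct]; omega) hM1 x hx (2 * j - 1) t₀
    rw [nt, ← hρdef, ← ha] at hup
    set q : ℝ := (1 / 2 + 1 / 2 * ρ ^ t₀) ^ (2 * j - 1) with hq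
    have hp : pt o s (!true) x (sd o s (!true)) ≤ (m + N * (N + 1)) * (2 * w) + N + N * (N + 1) := by
      have h1 := pt_le_sd (o := o) (s := s) false x
      rw [show (!false) = true from rfl, nt, Df, cf] at h1
      have h2 : av o s false = m + N * (N + 1) / (m + 1) := by unfold av; rw [nf, Df]
      rw [h2] at h1
      have h3 : hh m ≤ 2 * w := hh_sq w
      have h4 : (N : ℝ) * (N + 1) / (m + 1) ≤ N * (N + 1) :=
        div_le_self (by positivity) (by linarith)
      have h5 : 0 ≤ (N : ℝ) * (N + 1) / (m + 1) := by positivity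
      have h6 : (m + (N : ℝ) * (N + 1) / (m + 1)) * hh m
          ≤ (m + N * (N + 1)) * (2 * w) :=
        mul_le_mul (by linarith) h3 (hh_nonneg _) (by positivity)
      show pt o s false x (sd o s false) ≤ _
      linarith
    have hX : (m + (N : ℝ) * (N + 1)) * (2 * w) + N + N * (N + 1) + N + N * t₀ ≤ w ^ 3 * Y := by
      have e1 : (1 : ℝ) ≤ (w : ℝ) ^ 3 := one_le_pow₀ hw0
      have e2 : (w : ℝ) ≤ (w : ℝ) ^ 3 := le_self_pow₀ hw0 (by norm_num)
      have e3 : (m : ℝ) * (2 * w) = 2 * (w : ℝ) ^ 3 := by rw [hmr]; ring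
      have e4 : (0 : ℝ) ≤ (N : ℝ) * (N + 1) := by positivity
      have e5 : (N : ℝ) * (N + 1) * (2 * w) ≤ N * (N + 1) * (2 * (w : ℝ) ^ 3) :=
        mul_le_mul_of_nonneg_left (by linarith) e4
      have e6 : 2 * (N : ℝ) + N * (N + 1) + N * t₀ ≤ (2 * (N : ℝ) + N * (N + 1) + N * t₀) * w ^ 3 := by
        have : (0 : ℝ) ≤ 2 * (N : ℝ) + N * (N + 1) + N * t₀ := by positivity
        exact le_mul_of_one_le_right this e1
      rw [hY]
      linarith only [e3, e5, e6]
    have hB : pt o s (!true) x (sd o s (!true)) + N + N * (t₀ + q * a) ≤ w ^ 3 * Y + N * q * a := by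
      linarith only [hp, hX]
    have hfin : c * (2 * j) * (w ^ 3 * Y + N * q * a) < a * hh (N - 1) := by
      have f1 : c * (2 * j) * (w ^ 3 * Y) < a / 2 := by
        have g1 : (w : ℝ) ^ 4 / (N + 1) ≤ a := by
          rw [ha']
          have : (w : ℝ) ^ 4 / (N + 1) ≤ m * (m + 1) / (N + 1) := by
            apply div_le_div_of_nonneg_right _ hN1.le
            rw [hmr]
            have := sq_nonneg (w : ℝ)
            linarith only [this]
          linarith
        have g2 : c * (2 * j) * (w ^ 3 * Y) < (w : ℝ) ^ 4 / (N + 1) / 2 := by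
          rw [lt_div_iff₀ (by norm_num), lt_div_iff₀ hN1]
          have g3 : (0 : ℝ) < (w : ℝ) ^ 3 := by positivity
          have g4 := mul_lt_mul_of_pos_right hw2 g3
          linarith only [g4]
        linarith
      have f2 : c * (2 * j) * (N * q * a) ≤ a / 2 := by
        have g1 : c * (2 * j) * (N * q) ≤ 1 / 2 := by
          have g2 : (N : ℝ) * q ≤ 4 / N := by
            have g3 : (1 / 2 : ℝ) ^ (2 * j - 1) = 2 / (N * N) := by
              have : (2 : ℝ) * (1 / 2 : ℝ) ^ (2 * j - 1 + 1) = (1 / 2 : ℝ) ^ (2 * j - 1) := by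
                rw [pow_succ]; ring
              rw [← this, show 2 * j - 1 + 1 = j + j by omega, pow_add, hNr']
              rw [one_div, inv_pow]
              field_simp
            rw [g3] at ht₀
            have g4 : (N : ℝ) * q ≤ N * (2 * (2 / (N * N))) :=
              mul_le_mul_of_nonneg_left ht₀ (by positivity)
            refine g4.trans (le_of_eq ?_)
            field_simp
            norm_num
          have g5 : c * (2 * j) * (N * q) ≤ c * (2 * j) * (4 / N) :=
            mul_le_mul_of_nonneg_left g2 (by positivity)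
          refine g5.trans ?_
          rw [mul_div_assoc', div_le_iff₀ (by linarith)]
          have g6 := mul_le_mul_of_nonneg_right hjc (Nat.cast_nonneg (α := ℝ) j)
          linarith only [g6, hjN]
        have g7 := mul_le_mul_of_nonneg_right g1 hapos.le
        linarith only [g7]
      have f3 := le_mul_of_one_le_right hapos.le hh1
      linarith only [f1, f2, f3]
    have hcov : coverTime (two o s) (fun _ : Fin (2 * j - 1 + 1) => x)
        ≤ ENNReal.ofReal (w ^ 3 * Y + N * q * a) :=
      hup.trans (ENNReal.ofReal_le_ofReal hB)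
    calc ENNReal.ofReal (c * (2 * j)) * coverTime (two o s) (fun _ : Fin (2 * j - 1 + 1) => x)
        ≤ ENNReal.ofReal (c * (2 * j)) * ENNReal.ofReal (w ^ 3 * Y + N * q * a) := by gcongr
      _ = ENNReal.ofReal (c * (2 * j) * (w ^ 3 * Y + N * q * a)) := by
          rw [← ENNReal.ofReal_mul (by positivity)]
      _ < ENNReal.ofReal (a * hh (N - 1)) :=
          (ENNReal.ofReal_lt_ofReal_iff (by positivity)).2 hfin
      _ ≤ cmax (two o s) := hclow

end concrete

end Pool.Agent.Helper12K9.MW
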