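import Pool.Agent.Helper12K9.MW.Bounds

open scoped ENNReal
open Finset

namespace Pool.Agent.Helper12K9.MW

variable {V : Type} [Fintype V]

lemma tail_one (G : SimpleGraph V) (u : V) (t : ℕ) :
    tailCover G (fun _ : Fin 1 => u) t = miss G u Finset.univ t := by
  classical
  unfold tailCover miss
  rw [← (Equiv.funUnique (Fin 1) (Fin (t + 1) → V)).sum_comp
    (fun x : Fin (t + 1) → V => if (∀ v ∈ Finset.univ, ∃ s, x s = v) then 0 else wt G u x)]
  refine Finset.sum_congr rfl fun X _ => ?_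
  simp only [Equiv.funUnique_apply, Finset.mem_univ, true_implies, Fin.default_eq_zero,
    Fin.prod_univ_one]
  refine if_congr ?_ rfl rfl
  constructor
  · intro h v
    obtain ⟨i, j, hj⟩ := h v
    rw [Subsingleton.elim i 0] at hj
    exact ⟨j, hj⟩
  · intro h v
    obtain ⟨j, hj⟩ := h v
    exact ⟨0, j, hj⟩

lemma tailHit_eq (G : SimpleGraph V) (u v : V) (t : ℕ) : tailHit G u v t = miss G u {v} t := by
  classical
  unfold tailHit miss
  refine Finset.sum_congr rfl fun x _ => ?_
  refine if_congr ?_ rfl rfl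
  simp

lemma tailCover_nonneg (G : SimpleGraph V) {k : ℕ} (u : Fin k → V) (t : ℕ) :
    0 ≤ tailCover G u t := by
  classical
  unfold tailCover
  refine Finset.sum_nonneg fun X _ => ?_
  split_ifs
  · exact le_rfl
  · exact Finset.prod_nonneg fun i _ => wt_nonneg G _ _

lemma sum_prod {k : ℕ} {P : Type} [Fintype P] [DecidableEq P] (f : Fin k → P → ℝ) :
    ∑ X : Fin k → P, ∏ i, f i (X i) = ∏ i, ∑ x, f i x := by
  rw [Finset.prod_univ_sum, Fintype.piFinset_univ]

open Classical in
lemma sum_first (G : SimpleGraph V) (hG : Sto G) {k : ℕ} (u : Fin k → V) (i₀ : Fin k)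
    (A : Finset V) (t : ℕ) :
    ∑ X : Fin k → Fin (t + 1) → V,
      (if (∀ v ∈ A, ∃ s, X i₀ s = v) then 0 else ∏ i, wt G (u i) (X i)) = miss G (u i₀) A t := by
  set f : Fin k → (Fin (t + 1) → V) → ℝ := fun i x =>
    if i = i₀ then (if (∀ v ∈ A, ∃ s, x s = v) then 0 else wt G (u i) x) else wt G (u i) x
    with hf
  have h1 : ∀ X : Fin k → Fin (t + 1) → V,
      (if (∀ v ∈ A, ∃ s, X i₀ s = v) then 0 else ∏ i, wt G (u i) (X i)) = ∏ i, f i (X i) := by
    intro X
    split_ifs with h
    · symm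
      refine Finset.prod_eq_zero (Finset.mem_univ i₀) ?_
      simp only [hf, if_true]
      rw [if_pos h]
    · refine Finset.prod_congr rfl fun i _ => ?_
      simp only [hf]
      split_ifs with h2 h3
      · subst h2; exact absurd h3 h
      · rfl
      · rfl
  rw [Finset.sum_congr rfl fun X _ => h1 X, sum_prod]
  rw [← Finset.mul_prod_erase _ _ (Finset.mem_univ i₀)]
  have h2 : ∏ i ∈ Finset.univ.erase i₀, ∑ x, f i x = 1 := by
    refine Finset.prod_eq_one fun i hi => ?_
    have hi' : i ≠ i₀ := Finset.ne_of_mem_erase hi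
    simp only [hf, if_neg hi']
    exact wt_sum G hG _ _
  rw [h2, mul_one]
  unfold miss
  simp only [hf, if_true]

open Classical in
lemma sum_point (G : SimpleGraph V) {k : ℕ} (u : Fin k → V) (v : V) (t : ℕ) :
    ∑ X : Fin k → Fin (t + 1) → V,
      (if (∃ i s, X i s = v) then 0 else ∏ i, wt G (u i) (X i)) = ∏ i, miss G (u i) {v} t := by
  set f : Fin k → (Fin (t + 1) → V) → ℝ := fun i x =>
    if (∃ s, x s = v) then 0 else wt G (u i) x with hf
  have h1 : ∀ X : Fin k → Fin (t + 1) → V,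
      (if (∃ i s, X i s = v) then 0 else ∏ i, wt G (u i) (X i)) = ∏ i, f i (X i) := by
    intro X
    split_ifs with h
    · obtain ⟨i, h⟩ := h
      symm
      refine Finset.prod_eq_zero (Finset.mem_univ i) ?_
      simp only [hf]
      rw [if_pos h]
    · refine Finset.prod_congr rfl fun i _ => ?_
      simp only [hf]
      rw [if_neg]
      intro h2
      exact h ⟨i, h2⟩
  rw [Finset.sum_congr rfl fun X _ => h1 X, sum_prod]
  refine Finset.prod_congr rfl fun i _ => ?_
  rw [← tailHit_eq]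
  rfl

lemma tail_multi (G : SimpleGraph V) (hG : Sto G) {k : ℕ} (u : Fin k → V) (i₀ : Fin k)
    (A B C : Finset V) (hcov : ∀ v, v ∈ A ∨ v ∈ B ∨ v ∈ C) (t : ℕ) :
    tailCover G u t ≤ miss G (u i₀) A t + miss G (u i₀) B t
      + ∑ v ∈ C, ∏ i, miss G (u i) {v} t := by
  classical
  rw [← sum_first G hG u i₀ A t, ← sum_first G hG u i₀ B t]
  rw [Finset.sum_congr rfl fun v _ => (sum_point G u v t).symm]
  rw [Finset.sum_comm, ← Finset.sum_add_distrib, ← Finset.sum_add_distrib]
  unfold tailCover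
  refine Finset.sum_le_sum fun X _ => ?_
  have hw : 0 ≤ ∏ i, wt G (u i) (X i) := Finset.prod_nonneg fun i _ => wt_nonneg G _ _
  have hA : 0 ≤ (if (∀ v ∈ A, ∃ s, X i₀ s = v) then 0 else ∏ i, wt G (u i) (X i)) := by
    split_ifs <;> simp [hw]
  have hB : 0 ≤ (if (∀ v ∈ B, ∃ s, X i₀ s = v) then 0 else ∏ i, wt G (u i) (X i)) := by
    split_ifs <;> simp [hw]
  have hC' : ∀ v ∈ C, 0 ≤ (if (∃ i s, X i s = v) then 0 else ∏ i, wt G (u i) (X i)) := by
    intro v _
    split_ifs <;> simp [hw]
  have hC : 0 ≤ ∑ v ∈ C, (if (∃ i s, X i s = v) then 0 else ∏ i, wt G (u i) (X i)) :=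
    Finset.sum_nonneg hC'
  by_cases h : ∀ v, ∃ i s, X i s = v
  · rw [if_pos h]; linarith
  · rw [if_neg h]
    push_neg at h
    obtain ⟨v, hv⟩ := h
    rcases hcov v with h1 | h1 | h1
    · have : ¬ ∀ v ∈ A, ∃ s, X i₀ s = v := by
        intro h2
        obtain ⟨j, hj⟩ := h2 v h1
        exact hv i₀ j hj
      rw [if_neg this]; linarith
    · have : ¬ ∀ v ∈ B, ∃ s, X i₀ s = v := by
        intro h2
        obtain ⟨j, hj⟩ := h2 v h1
        exact hv i₀ j hj
      rw [if_neg this]; linarith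
    · have h3 := Finset.single_le_sum hC' h1
      have : ¬ ∃ i s, X i s = v := by
        rintro ⟨i, j, hj⟩
        exact hv i j hj
      rw [if_neg this] at h3
      linarith

lemma pow_sum (g : ℕ → ℝ) (h0 : ∀ i, 0 ≤ g i) (h1 : ∀ i, g i ≤ 1) (t₀ : ℕ) (q a : ℝ)
    (hq0 : 0 ≤ q) (hq : ∀ i, t₀ ≤ i → g i ≤ q) (t : ℕ) (ha : ∑ i ∈ Finset.range t, g i ≤ a)
    (k : ℕ) : ∑ i ∈ Finset.range t, g i ^ (k + 1) ≤ t₀ + q ^ k * a := by
  have h2 : ∀ i ∈ Finset.range t, g i ^ (k + 1) ≤ (if i < t₀ then 1 else 0) + q ^ k * g i := by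
    intro i _
    split_ifs with h
    · have : g i ^ (k + 1) ≤ 1 := pow_le_one₀ (h0 i) (h1 i)
      have := mul_nonneg (pow_nonneg hq0 k) (h0 i)
      linarith
    · rw [pow_succ, zero_add]
      exact mul_le_mul_of_nonneg_right (pow_le_pow_left₀ (h0 i) (hq i (by omega)) k) (h0 i)
  refine (Finset.sum_le_sum h2).trans ?_
  rw [Finset.sum_add_distrib, ← Finset.mul_sum]
  have h3 : ∑ i ∈ Finset.range t, (if i < t₀ then (1 : ℝ) else 0) ≤ t₀ := by
    rw [Finset.sum_ite, Finset.sum_const_zero, add_zero, Finset.sum_const, nsmul_eq_mul, mul_one]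
    have : ((Finset.range t).filter fun i => i < t₀) ⊆ Finset.range t₀ := by
      intro i hi
      simp only [Finset.mem_filter] at hi
      exact Finset.mem_range.2 hi.2
    have := Finset.card_le_card this
    rw [Finset.card_range] at this
    exact_mod_cast this
  have h4 := mul_le_mul_of_nonneg_left ha (pow_nonneg hq0 k)
  linarith

variable {o : V} {s : V → Bool}

/-- upper bound for the cover time of `k + 1` walks started at the vertex `x` of the side `b` -/
lemma multi_upper {b : Bool} (hn : 2 ≤ (sd o s b).card) (hM : 0 < (sd o s (!b)).card) (x : V)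
    (hx : x ∈ sd o s b) (k t₀ : ℕ) :
    coverTime (two o s) (fun _ : Fin (k + 1) => x) ≤ ENNReal.ofReal
      (pt o s (!b) x (sd o s (!b)) + nn o s b
        + nn o s b * (t₀ + (1 / 2 + 1 / 2 * (1 - 2 / nn o s b) ^ t₀) ^ k * av o s b)) := by
  classical
  have hn' : 0 < (sd o s b).card := by omega
  have hsto := sto_two o s b hn' hM
  have hMM : 0 < (sd o s (!!b)).card := by rw [Bool.not_not]; exact hn'
  have hN : (2 : ℝ) ≤ nn o s b := by unfold nn; exact_mod_cast hn
  have hρ : 0 ≤ 1 - 2 / nn o s b := by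
    rw [sub_nonneg, div_le_one (by linarith)]; exact hN
  have hρ1 : 1 - 2 / nn o s b ≤ 1 := by
    have : 0 ≤ 2 / nn o s b := by positivity
    linarith
  refine tsum_le_of_partial _ (fun t => tailCover_nonneg _ _ t) _ fun t => ?_
  have h1 : ∀ i ∈ Finset.range t, tailCover (two o s) (fun _ : Fin (k + 1) => x) i
      ≤ miss (two o s) x (sd o s (!b)) i + miss (two o s) x {o} i
        + ∑ v ∈ sd o s b, miss (two o s) x {v} i ^ (k + 1) := by
    intro i _
    have := tail_multi (two o s) hsto (fun _ : Fin (k + 1) => x) 0 (sd o s (!b)) {o} (sd o s b)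
      (fun v => by
        rcases cases_V o s b v with h | h | h
        · exact Or.inr (Or.inr h)
        · exact Or.inr (Or.inl (by simp [h]))
        · exact Or.inl h) i
    simpa using this
  refine (Finset.sum_le_sum h1).trans ?_
  rw [Finset.sum_add_distrib, Finset.sum_add_distrib, Finset.sum_comm]
  have h2 : ∑ i ∈ Finset.range t, miss (two o s) x (sd o s (!b)) i ≤ pt o s (!b) x (sd o s (!b)) :=
    cover_upper hM hMM x _ subset_rfl t
  have h3 : ∑ i ∈ Finset.range t, miss (two o s) x {o} i ≤ nn o s b := by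
    have hx' := (mem_sd o s).1 hx
    have hpos : 0 < (sd o s true).card ∧ 0 < (sd o s false).card := by
      cases b
      · exact ⟨hM, hn'⟩
      · exact ⟨hn', hM⟩
    have := hit_o (o := o) (s := s) hpos.1 hpos.2 x t
    rw [if_neg hx'.1, hx'.2] at this
    exact this
  have h4 : ∑ v ∈ sd o s b, ∑ i ∈ Finset.range t, miss (two o s) x {v} i ^ (k + 1)
      ≤ nn o s b * (t₀ + (1 / 2 + 1 / 2 * (1 - 2 / nn o s b) ^ t₀) ^ k * av o s b) := by
    have h5 : ∀ v ∈ sd o s b, ∑ i ∈ Finset.range t, miss (two o s) x {v} i ^ (k + 1)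
        ≤ t₀ + (1 / 2 + 1 / 2 * (1 - 2 / nn o s b) ^ t₀) ^ k * av o s b := by
      intro v hv
      refine pow_sum _ (fun i => miss_nonneg _ _ _ _) (fun i => miss_le_one _ hsto _ _ _) t₀ _ _
        (by positivity) ?_ t (hit_upper' hn' hM x v hx hv t) k
      intro i hi
      by_cases hxv : x = v
      · subst hxv
        rw [miss_done _ _ _ (by simp)]
        positivity
      · refine (half hn hM v hv i x hx hxv).trans ?_
        have := pow_le_pow_of_le_one hρ hρ1 hi
        linarith
    refine (Finset.sum_le_sum h5).trans ?_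
    rw [Finset.sum_const, nsmul_eq_mul]
    exact le_rfl
  linarith

end Pool.Agent.Helper12K9.MW
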