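import Pool.Agent.Helper12K9.MW.Walk

open scoped ENNReal
open Finset

namespace Pool.Agent.Helper12K9.MW

variable {V : Type} [Fintype V]

/-- Two cliques sharing the vertex `o`; the vertices `≠ o` with `s x = b` and `o` form a clique. -/
def two (o : V) (s : V → Bool) : SimpleGraph V where
  Adj x y := x ≠ y ∧ (x = o ∨ y = o ∨ s x = s y)
  symm := ⟨fun x y h => ⟨h.1.symm, by
    rcases h.2 with h | h | h
    · exact Or.inr (Or.inl h)
    · exact Or.inl h
    · exact Or.inr (Or.inr h.symm)⟩⟩
  loopless := ⟨fun x h => h.1 rfl⟩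

open Classical in
/-- the side `b` -/
noncomputable def sd (o : V) (s : V → Bool) (b : Bool) : Finset V :=
  Finset.univ.filter fun z => z ≠ o ∧ s z = b

variable (o : V) (s : V → Bool)

open Classical in
lemma mem_sd {b : Bool} {z : V} : z ∈ sd o s b ↔ z ≠ o ∧ s z = b := by
  simp [sd]

open Classical in
lemma row_eq (G : SimpleGraph V) (x : V) (F : V → ℝ) :
    ∑ y, tr G x y * F y = 1 / (((Finset.univ.filter fun z => G.Adj x z).card : ℕ) : ℝ)
      * ∑ y ∈ Finset.univ.filter fun z => G.Adj x z, F y := by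
  rw [Finset.mul_sum, Finset.sum_filter]
  refine Finset.sum_congr rfl fun y _ => ?_
  unfold tr
  split_ifs <;> simp

open Classical in
lemma nb_side {b : Bool} {y : V} (hy : y ∈ sd o s b) :
    (Finset.univ.filter fun z => (two o s).Adj y z) = insert o ((sd o s b).erase y) := by
  rw [mem_sd] at hy
  ext z
  simp only [Finset.mem_filter, Finset.mem_univ, true_and, Finset.mem_insert, Finset.mem_erase,
    mem_sd]
  constructor
  · rintro ⟨h1, h2 | h2 | h2⟩
    · exact absurd h2 hy.1
    · exact Or.inl h2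
    · by_cases hz : z = o
      · exact Or.inl hz
      · exact Or.inr ⟨h1.symm, hz, by rw [← h2, hy.2]⟩
  · rintro (h | ⟨h1, h2, h3⟩)
    · subst h
      exact ⟨hy.1, Or.inr (Or.inl rfl)⟩
    · exact ⟨h1.symm, Or.inr (Or.inr (by rw [hy.2, h3]))⟩

open Classical in
lemma nb_o (b : Bool) :
    (Finset.univ.filter fun z => (two o s).Adj o z) = sd o s b ∪ sd o s (!b) := by
  ext z
  simp only [Finset.mem_filter, Finset.mem_univ, true_and, Finset.mem_union, mem_sd]
  constructor
  · rintro ⟨h1, _⟩
    by_cases hb : s z = b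
    · exact Or.inl ⟨h1.symm, hb⟩
    · refine Or.inr ⟨h1.symm, ?_⟩
      revert hb; cases s z <;> cases b <;> simp
  · rintro (h | h)
    · exact ⟨h.1.symm, Or.inl rfl⟩
    · exact ⟨h.1.symm, Or.inl rfl⟩

open Classical in
lemma disj_sd (b : Bool) : Disjoint (sd o s b) (sd o s (!b)) := by
  rw [Finset.disjoint_left]
  intro z h1 h2
  rw [mem_sd] at h1 h2
  rw [h1.2] at h2
  revert h2; cases b <;> simp

open Classical in
lemma card_side {b : Bool} {y : V} (hy : y ∈ sd o s b) :
    (Finset.univ.filter fun z => (two o s).Adj y z).card = (sd o s b).card := by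
  rw [nb_side o s hy, Finset.card_insert_of_notMem, Finset.card_erase_of_mem hy]
  · have : 0 < (sd o s b).card := Finset.card_pos.2 ⟨y, hy⟩
    omega
  · simp [mem_sd]

open Classical in
lemma card_o (b : Bool) :
    (Finset.univ.filter fun z => (two o s).Adj o z).card = (sd o s b).card + (sd o s (!b)).card := by
  rw [nb_o o s b, Finset.card_union_of_disjoint (disj_sd o s b)]

open Classical in
lemma row_side {b : Bool} {y : V} (hy : y ∈ sd o s b) (F : V → ℝ) :
    ∑ z, tr (two o s) y z * F z
      = 1 / ((sd o s b).card : ℝ) * (F o + (∑ z ∈ sd o s b, F z - F y)) := by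
  rw [row_eq, card_side o s hy, nb_side o s hy, Finset.sum_insert (by simp [mem_sd])]
  congr 2
  rw [← Finset.sum_erase_add _ _ hy]; ring

open Classical in
lemma row_o (b : Bool) (F : V → ℝ) :
    ∑ z, tr (two o s) o z * F z
      = 1 / ((sd o s b).card + (sd o s (!b)).card : ℝ)
        * (∑ z ∈ sd o s b, F z + ∑ z ∈ sd o s (!b), F z) := by
  rw [row_eq, card_o o s b, nb_o o s b, Finset.sum_union (disj_sd o s b)]
  push_cast
  rfl

lemma cases_V (b : Bool) (u : V) : u ∈ sd o s b ∨ u = o ∨ u ∈ sd o s (!b) := by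
  classical
  by_cases h : u = o
  · exact Or.inr (Or.inl h)
  · by_cases hb : s u = b
    · exact Or.inl ((mem_sd o s).2 ⟨h, hb⟩)
    · refine Or.inr (Or.inr ((mem_sd o s).2 ⟨h, ?_⟩))
      revert hb; cases s u <;> cases b <;> simp

lemma o_notMem (b : Bool) : o ∉ sd o s b := by
  classical
  simp [mem_sd]

lemma sto_two (b : Bool) (h1 : 0 < (sd o s b).card) (h2 : 0 < (sd o s (!b)).card) :
    Sto (two o s) := by
  classical
  intro x
  have h1' : (0 : ℝ) < (sd o s b).card := by exact_mod_cast h1
  have h2' : (0 : ℝ) < (sd o s (!b)).card := by exact_mod_cast h2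
  rcases cases_V o s b x with h | h | h
  · have := row_side o s h (fun _ => (1 : ℝ))
    simp only [mul_one, Finset.sum_const, nsmul_eq_mul] at this
    rw [this]
    have : (1 : ℝ) + ((sd o s b).card - 1) = (sd o s b).card := by ring
    rw [this]
    field_simp
  · subst h
    have := row_o x s b (fun _ => (1 : ℝ))
    simp only [mul_one, Finset.sum_const, nsmul_eq_mul] at this
    rw [this]
    field_simp
  · have := row_side o s h (fun _ => (1 : ℝ))
    simp only [mul_one, Finset.sum_const, nsmul_eq_mul] at this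
    rw [this]
    have : (1 : ℝ) + ((sd o s (!b)).card - 1) = (sd o s (!b)).card := by ring
    rw [this]
    field_simp

/-- harmonic numbers -/
noncomputable def hh (r : ℕ) : ℝ := ∑ i ∈ Finset.range r, 1 / ((i : ℝ) + 1)

lemma hh_zero : hh 0 = 0 := by simp [hh]

lemma hh_succ (r : ℕ) : hh (r + 1) = hh r + 1 / ((r : ℝ) + 1) := by
  unfold hh; rw [Finset.sum_range_succ]

lemma hh_nonneg (r : ℕ) : 0 ≤ hh r := Finset.sum_nonneg fun i _ => by positivity

lemma hh_mono {r t : ℕ} (h : r ≤ t) : hh r ≤ hh t :=
  Finset.sum_le_sum_of_subset_of_nonneg (Finset.range_mono h) fun i _ _ => by positivity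

open Classical in
/-- expected remaining time to cover `A ⊆ sd b` from `u` -/
noncomputable def pot (b : Bool) (a D : ℝ) (u : V) (A : Finset V) : ℝ :=
  if A.erase u = ∅ then 0 else
    a * hh (A.erase u).card + (if u ∈ sd o s b then 0 else if u = o then D else
      ((sd o s (!b)).card : ℝ) + D)

open Classical in
lemma pot_eq (b : Bool) (a D : ℝ) (hn : 0 < (sd o s b).card) (hM : 0 < (sd o s (!b)).card)
    (h1 : a - D = ((sd o s b).card : ℝ))
    (h2 : ((sd o s b).card : ℝ) * D + a
      = ((sd o s b).card : ℝ) + ((sd o s (!b)).card : ℝ) + ((sd o s (!b)).card : ℝ) ^ 2)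
    (u : V) (A : Finset V) (hA : A ⊆ sd o s b) (hu : A.erase u ≠ ∅) :
    1 + ∑ y, tr (two o s) u y * pot o s b a D y (A.erase u) = pot o s b a D u A := by
  set n : ℝ := ((sd o s b).card : ℝ) with hndef
  set M : ℝ := ((sd o s (!b)).card : ℝ) with hMdef
  have hn' : 0 < n := by rw [hndef]; exact_mod_cast hn
  have hM' : 0 < M := by rw [hMdef]; exact_mod_cast hM
  set B := A.erase u with hB
  have hBA : B ⊆ sd o s b := (Finset.erase_subset _ _).trans hA
  have huB : u ∉ B := Finset.notMem_erase _ _
  obtain ⟨r, hr⟩ : ∃ r, B.card = r + 1 :=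
    ⟨B.card - 1, by have := Finset.card_pos.2 (Finset.nonempty_iff_ne_empty.2 hu); omega⟩
  have hr' : (B.card : ℝ) = r + 1 := by rw [hr]; push_cast; ring
  -- values
  have v1 : ∀ y ∈ sd o s b, y ∉ B → pot o s b a D y B = a * hh (r + 1) := by
    intro y hy hyB
    unfold pot
    rw [Finset.erase_eq_of_notMem hyB, if_neg hu, if_pos hy, hr]; ring
  have v2 : ∀ y ∈ B, pot o s b a D y B = a * hh r := by
    intro y hy
    unfold pot
    have hc : (B.erase y).card = r := by rw [Finset.card_erase_of_mem hy, hr]; rfl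
    split_ifs with h3 h4
    · have : r = 0 := by rw [← hc, h3]; rfl
      rw [this, hh_zero, mul_zero]
    · rw [hc]; ring
    · exact absurd (hBA hy) h4
    · exact absurd (hBA hy) h4
  have v3 : pot o s b a D o B = a * hh (r + 1) + D := by
    unfold pot
    have ho : o ∉ B := fun h => o_notMem o s b (hBA h)
    rw [Finset.erase_eq_of_notMem ho, if_neg hu, if_neg (o_notMem o s b), if_pos rfl, hr]
  have v4 : ∀ y ∈ sd o s (!b), pot o s b a D y B = a * hh (r + 1) + (M + D) := by
    intro y hy
    unfold pot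
    have hyb : y ∉ sd o s b := fun h => (Finset.disjoint_left.1 (disj_sd o s b)) h hy
    have hyB : y ∉ B := fun h => hyb (hBA h)
    have hyo : y ≠ o := ((mem_sd o s).1 hy).1
    rw [Finset.erase_eq_of_notMem hyB, if_neg hu, if_neg hyb, if_neg hyo, hr]
  -- sum over the side b
  have s1 : ∑ y ∈ sd o s b, pot o s b a D y B = n * (a * hh (r + 1)) - a := by
    rw [← Finset.sum_sdiff hBA]
    rw [Finset.sum_congr rfl (fun y hy => v1 y (Finset.mem_sdiff.1 hy).1 (Finset.mem_sdiff.1 hy).2)]
    rw [Finset.sum_congr rfl v2]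
    simp only [Finset.sum_const, nsmul_eq_mul]
    have hc : ((sd o s b \ B).card : ℝ) = n - (r + 1) := by
      rw [Finset.card_sdiff_of_subset hBA, Nat.cast_sub (Finset.card_le_card hBA), hr']
    rw [hc, hr', hh_succ]
    have : (r : ℝ) + 1 ≠ 0 := by positivity
    field_simp
    ring
  have s2 : ∑ y ∈ sd o s (!b), pot o s b a D y B = M * (a * hh (r + 1) + (M + D)) := by
    rw [Finset.sum_congr rfl v4]
    simp only [Finset.sum_const, nsmul_eq_mul]
    rw [← hMdef]
  rcases cases_V o s b u with h | h | h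
  · rw [row_side o s h, s1, v3, v1 u h huB]
    have : pot o s b a D u A = a * hh (r + 1) := by
      unfold pot
      rw [← hB, if_neg hu, if_pos h, hr]; ring
    rw [this, ← hndef]
    field_simp
    linear_combination -h1
  · subst h
    rw [row_o u s b, s1, s2]
    have : pot u s b a D u A = a * hh (r + 1) + D := by
      unfold pot
      rw [← hB, if_neg hu, if_neg (o_notMem u s b), if_pos rfl, hr]
    rw [this, ← hndef, ← hMdef]
    field_simp
    linear_combination -h2
  · have hub : u ∉ sd o s b := fun h' => (Finset.disjoint_left.1 (disj_sd o s b)) h' h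
    have huo : u ≠ o := ((mem_sd o s).1 h).1
    rw [row_side o s h, s2, v3, v4 u h]
    have : pot o s b a D u A = a * hh (r + 1) + (M + D) := by
      unfold pot
      rw [← hB, if_neg hu, if_neg hub, if_neg huo, hr]
    rw [this, ← hMdef]
    field_simp
    ring

end Pool.Agent.Helper12K9.MW
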