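import Pool.Agent.Helper12K9.MW.Defs

open scoped ENNReal
open Finset

namespace Pool.Agent.Helper12K9.MW

variable {V : Type} [Fintype V]

open Classical in
/-- probability that the walk from `u` has not visited all of `A` by time `t` -/
noncomputable def miss (G : SimpleGraph V) (u : V) (A : Finset V) (t : ℕ) : ℝ :=
  ∑ x : Fin (t + 1) → V, if (∀ v ∈ A, ∃ s, x s = v) then 0 else wt G u x

lemma tr_nonneg (G : SimpleGraph V) (x y : V) : 0 ≤ tr G x y := by
  unfold tr; split_ifs <;> positivity

lemma wt_nonneg (G : SimpleGraph V) (u : V) {t : ℕ} (x : Fin (t + 1) → V) : 0 ≤ wt G u x := by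
  unfold wt; split_ifs
  · exact Finset.prod_nonneg fun _ _ => tr_nonneg G _ _
  · exact le_rfl

lemma miss_nonneg (G : SimpleGraph V) (u : V) (A : Finset V) (t : ℕ) : 0 ≤ miss G u A t := by
  classical
  unfold miss
  refine Finset.sum_nonneg fun x _ => ?_
  split_ifs
  · exact le_rfl
  · exact wt_nonneg G u x

open Classical in
lemma wt_cons (G : SimpleGraph V) (u a : V) {t : ℕ} (x : Fin (t + 1) → V) :
    wt G u (Fin.cons a x : Fin (t + 1 + 1) → V) =
      if a = u then ∑ y, tr G u y * wt G y x else 0 := by
  unfold wt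
  simp only [Fin.cons_zero]
  split_ifs with h
  · subst h
    rw [Fin.prod_univ_succ]
    simp only [Fin.castSucc_zero, Fin.cons_zero, Fin.cons_succ, Fin.succ_zero_eq_one]
    rw [Finset.sum_eq_single (x 0)]
    · simp only [if_true]
      have h1 : (Fin.cons a x : Fin (t + 1 + 1) → V) 1 = x 0 := by
        rw [← Fin.succ_zero_eq_one, Fin.cons_succ]
      rw [h1]
      congr 1
    · intro b _ hb
      rw [if_neg (fun h => hb h.symm)]; simp
    · intro h; exact absurd (Finset.mem_univ _) h
  · rfl

/-- first step decomposition -/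
lemma sum_path_succ (G : SimpleGraph V) (u : V) {t : ℕ} (F : (Fin (t + 1 + 1) → V) → ℝ) :
    ∑ x : Fin (t + 1 + 1) → V, F x * wt G u x =
      ∑ y, tr G u y * ∑ x : Fin (t + 1) → V, F (Fin.cons u x) * wt G y x := by
  classical
  have e := (Fin.consEquiv (fun _ : Fin (t + 1 + 1) => V)).sum_comp
    (fun x : Fin (t + 1 + 1) → V => F x * wt G u x)
  rw [← e, Fintype.sum_prod_type]
  have hc : ∀ (a : V) (x : Fin (t + 1) → V),
      (Fin.consEquiv (fun _ : Fin (t + 1 + 1) => V)) (a, x) = Fin.cons a x := fun _ _ => rfl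
  simp only [hc]
  rw [Finset.sum_eq_single u]
  · calc ∑ x : Fin (t + 1) → V, F (Fin.cons u x) * wt G u (Fin.cons u x : Fin (t + 1 + 1) → V)
        = ∑ x : Fin (t + 1) → V, ∑ y, tr G u y * (F (Fin.cons u x) * wt G y x) := by
          refine Finset.sum_congr rfl fun x _ => ?_
          rw [wt_cons, if_pos rfl, Finset.mul_sum]
          exact Finset.sum_congr rfl fun y _ => by ring
      _ = _ := by
          rw [Finset.sum_comm]
          exact Finset.sum_congr rfl fun y _ => by rw [Finset.mul_sum]
  · intro a _ ha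
    refine Finset.sum_eq_zero fun x _ => ?_
    rw [wt_cons, if_neg ha, mul_zero]
  · intro h; exact absurd (Finset.mem_univ _) h

open Classical in
lemma miss_eq (G : SimpleGraph V) (u : V) (A : Finset V) (t : ℕ) :
    miss G u A t = ∑ x : Fin (t + 1) → V,
      (if (∀ v ∈ A, ∃ s, x s = v) then (0 : ℝ) else 1) * wt G u x := by
  unfold miss
  refine Finset.sum_congr rfl fun x _ => ?_
  split_ifs <;> simp

open Classical in
lemma miss_succ (G : SimpleGraph V) (u : V) (A : Finset V) (t : ℕ) :
    miss G u A (t + 1) = ∑ y, tr G u y * miss G y (A.erase u) t := by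
  rw [miss_eq, sum_path_succ]
  refine Finset.sum_congr rfl fun y _ => ?_
  rw [miss_eq]
  congr 1
  refine Finset.sum_congr rfl fun x _ => ?_
  congr 1
  refine if_congr ?_ rfl rfl
  constructor
  · intro h v hv
    rw [Finset.mem_erase] at hv
    obtain ⟨s, hs⟩ := h v hv.2
    refine Fin.cases (fun hs => ?_) (fun j hs => ⟨j, by simpa using hs⟩) s hs
    exact absurd (by simpa using hs) (Ne.symm hv.1)
  · intro h v hv
    by_cases hvu : v = u
    · exact ⟨0, by simp [hvu]⟩
    · obtain ⟨s, hs⟩ := h v (Finset.mem_erase.2 ⟨hvu, hv⟩)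
      exact ⟨s.succ, by simpa using hs⟩

open Classical in
lemma miss_zero (G : SimpleGraph V) (u : V) (A : Finset V) :
    miss G u A 0 = if A.erase u = ∅ then 0 else 1 := by
  rw [miss_eq]
  rw [Finset.sum_eq_single (fun _ => u)]
  · have h1 : wt G u (fun _ : Fin (0 + 1) => u) = 1 := by simp [wt]
    rw [h1, mul_one]
    refine if_congr ?_ rfl rfl
    constructor
    · intro h
      ext v
      simp only [Finset.mem_erase, Finset.notMem_empty, iff_false, not_and]
      intro hv hvA
      obtain ⟨_, hs⟩ := h v hvA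
      exact hv hs.symm
    · intro h v hv
      refine ⟨0, ?_⟩
      by_contra hne
      have : v ∈ A.erase u := Finset.mem_erase.2 ⟨fun h' => hne h'.symm, hv⟩
      rw [h] at this
      exact absurd this (Finset.notMem_empty v)
  · intro x _ hx
    have h1 : wt G u x = 0 := by
      unfold wt
      rw [if_neg]
      intro h
      apply hx
      funext s
      have : s = 0 := Subsingleton.elim (α := Fin 1) s 0
      rw [this, h]
    rw [h1, mul_zero]
  · intro h; exact absurd (Finset.mem_univ _) h

open Classical in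
lemma miss_empty (G : SimpleGraph V) (u : V) (t : ℕ) : miss G u ∅ t = 0 := by
  unfold miss
  refine Finset.sum_eq_zero fun x _ => ?_
  rw [if_pos]
  intro v hv
  exact absurd hv (Finset.notMem_empty v)

open Classical in
lemma miss_done (G : SimpleGraph V) (u : V) (A : Finset V) (hA : A.erase u = ∅) (t : ℕ) :
    miss G u A t = 0 := by
  cases t with
  | zero => rw [miss_zero, if_pos hA]
  | succ t =>
    rw [miss_succ]
    refine Finset.sum_eq_zero fun y _ => ?_
    rw [hA, miss_empty, mul_zero]

lemma miss_mono (G : SimpleGraph V) (u : V) {A B : Finset V} (h : A ⊆ B) (t : ℕ) :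
    miss G u A t ≤ miss G u B t := by
  classical
  unfold miss
  refine Finset.sum_le_sum fun x _ => ?_
  split_ifs with h1 h2
  · exact le_rfl
  · exact wt_nonneg G u x
  · exact absurd (fun v hv => by rename_i h3; exact h3 v (h hv)) h1
  · exact le_rfl

lemma miss_union (G : SimpleGraph V) (u : V) [DecidableEq V] (A B : Finset V) (t : ℕ) :
    miss G u (A ∪ B) t ≤ miss G u A t + miss G u B t := by
  classical
  unfold miss
  rw [← Finset.sum_add_distrib]
  refine Finset.sum_le_sum fun x _ => ?_
  have hw := wt_nonneg G u x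
  by_cases h2 : ∀ v ∈ A, ∃ s, x s = v
  · by_cases h3 : ∀ v ∈ B, ∃ s, x s = v
    · have h1 : ∀ v ∈ A ∪ B, ∃ s, x s = v := by
        intro v hv
        rcases Finset.mem_union.1 hv with h | h
        · exact h2 v h
        · exact h3 v h
      rw [if_pos h1, if_pos h2, if_pos h3]; simp
    · rw [if_pos h2, if_neg h3]
      split_ifs <;> linarith
  · rw [if_neg h2]
    split_ifs <;> linarith

/-- rows of the transition matrix sum to one -/
def Sto (G : SimpleGraph V) : Prop := ∀ x, ∑ y, tr G x y = 1

lemma wt_sum (G : SimpleGraph V) (hG : Sto G) (u : V) (t : ℕ) :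
    ∑ x : Fin (t + 1) → V, wt G u x = 1 := by
  classical
  induction t generalizing u with
  | zero =>
    rw [Finset.sum_eq_single (fun _ => u)]
    · simp [wt]
    · intro x _ hx
      unfold wt
      rw [if_neg]
      intro h
      apply hx
      funext s
      have : s = 0 := Subsingleton.elim (α := Fin 1) s 0
      rw [this, h]
    · intro h; exact absurd (Finset.mem_univ _) h
  | succ t ih =>
    have := sum_path_succ G u (t := t) (fun _ => (1 : ℝ))
    simp only [one_mul] at this
    rw [this]
    calc ∑ y, tr G u y * ∑ x : Fin (t + 1) → V, wt G y x = ∑ y, tr G u y := by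
          refine Finset.sum_congr rfl fun y _ => ?_
          rw [ih y, mul_one]
      _ = 1 := hG u

lemma miss_le_one (G : SimpleGraph V) (hG : Sto G) (u : V) (A : Finset V) (t : ℕ) :
    miss G u A t ≤ 1 := by
  classical
  rw [← wt_sum G hG u t]
  unfold miss
  refine Finset.sum_le_sum fun x _ => ?_
  split_ifs
  · exact wt_nonneg G u x
  · exact le_rfl

lemma miss_anti (G : SimpleGraph V) (hG : Sto G) (u : V) (A : Finset V) (t : ℕ) :
    miss G u A (t + 1) ≤ miss G u A t := by
  classical
  induction t generalizing u A with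
  | zero =>
    rw [miss_zero]
    split_ifs with h
    · rw [miss_done G u A h]
    · exact miss_le_one G hG u A 1
  | succ t ih =>
    rw [miss_succ, miss_succ G u A t]
    refine Finset.sum_le_sum fun y _ => ?_
    exact mul_le_mul_of_nonneg_left (ih y _) (tr_nonneg G _ _)

open Classical in
/-- upper bound by a supersolution -/
lemma miss_upper (G : SimpleGraph V) (S : Finset V) (Φ : V → Finset V → ℝ)
    (h0 : ∀ u A, 0 ≤ Φ u A)
    (h : ∀ u A, A ⊆ S → A.erase u ≠ ∅ → 1 + ∑ y, tr G u y * Φ y (A.erase u) ≤ Φ u A)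
    (u : V) (A : Finset V) (hS : A ⊆ S) (t : ℕ) :
    ∑ s ∈ Finset.range t, miss G u A s ≤ Φ u A := by
  induction t generalizing u A with
  | zero => simpa using h0 u A
  | succ t ih =>
    by_cases hA : A.erase u = ∅
    · rw [Finset.sum_eq_zero fun s _ => miss_done G u A hA s]
      exact h0 u A
    · rw [Finset.sum_range_succ']
      have h1 : ∑ s ∈ Finset.range t, miss G u A (s + 1)
          = ∑ y, tr G u y * ∑ s ∈ Finset.range t, miss G y (A.erase u) s := by
        calc ∑ s ∈ Finset.range t, miss G u A (s + 1)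
            = ∑ s ∈ Finset.range t, ∑ y, tr G u y * miss G y (A.erase u) s :=
              Finset.sum_congr rfl fun s _ => miss_succ G u A s
          _ = _ := by
              rw [Finset.sum_comm]
              exact Finset.sum_congr rfl fun y _ => by rw [Finset.mul_sum]
      rw [h1, miss_zero, if_neg hA]
      have h2 : ∑ y, tr G u y * ∑ s ∈ Finset.range t, miss G y (A.erase u) s
          ≤ ∑ y, tr G u y * Φ y (A.erase u) :=
        Finset.sum_le_sum fun y _ => mul_le_mul_of_nonneg_left
          (ih y _ ((Finset.erase_subset _ _).trans hS)) (tr_nonneg G _ _)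
      have h3 := h u A hS hA
      linarith

open Classical in
/-- lower bound by a bounded subsolution -/
lemma miss_lower (G : SimpleGraph V) (S : Finset V) (Φ : V → Finset V → ℝ) (K : ℝ)
    (hK : ∀ u A, Φ u A ≤ K)
    (h0 : ∀ u A, A.erase u = ∅ → Φ u A ≤ 0)
    (h : ∀ u A, A ⊆ S → A.erase u ≠ ∅ → Φ u A ≤ 1 + ∑ y, tr G u y * Φ y (A.erase u))
    (u : V) (A : Finset V) (hS : A ⊆ S) (t : ℕ) :
    Φ u A ≤ ∑ s ∈ Finset.range t, miss G u A s + K * miss G u A t := by
  induction t generalizing u A with
  | zero =>
    rw [miss_zero]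
    split_ifs with hA
    · simpa using h0 u A hA
    · simpa using hK u A
  | succ t ih =>
    by_cases hA : A.erase u = ∅
    · rw [Finset.sum_eq_zero fun s _ => miss_done G u A hA s, miss_done G u A hA]
      simpa using h0 u A hA
    · rw [Finset.sum_range_succ']
      have h1 : ∑ s ∈ Finset.range t, miss G u A (s + 1)
          = ∑ y, tr G u y * ∑ s ∈ Finset.range t, miss G y (A.erase u) s := by
        calc ∑ s ∈ Finset.range t, miss G u A (s + 1)
            = ∑ s ∈ Finset.range t, ∑ y, tr G u y * miss G y (A.erase u) s :=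
              Finset.sum_congr rfl fun s _ => miss_succ G u A s
          _ = _ := by
              rw [Finset.sum_comm]
              exact Finset.sum_congr rfl fun y _ => by rw [Finset.mul_sum]
      rw [h1, miss_zero, if_neg hA, miss_succ]
      have h2 : ∑ y, tr G u y * Φ y (A.erase u)
          ≤ ∑ y, tr G u y * (∑ s ∈ Finset.range t, miss G y (A.erase u) s
              + K * miss G y (A.erase u) t) :=
        Finset.sum_le_sum fun y _ => mul_le_mul_of_nonneg_left
          (ih y _ ((Finset.erase_subset _ _).trans hS)) (tr_nonneg G _ _)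
      have h4 : ∑ y, tr G u y * (∑ s ∈ Finset.range t, miss G y (A.erase u) s
              + K * miss G y (A.erase u) t)
          = ∑ y, tr G u y * ∑ s ∈ Finset.range t, miss G y (A.erase u) s
            + K * ∑ y, tr G u y * miss G y (A.erase u) t := by
        rw [Finset.mul_sum, ← Finset.sum_add_distrib]
        exact Finset.sum_congr rfl fun y _ => by ring
      have h3 := h u A hS hA
      linarith

/-- sums of nonnegative reals with bounded partial sums -/
lemma tsum_le_of_partial (f : ℕ → ℝ) (hf : ∀ t, 0 ≤ f t) (B : ℝ)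
    (h : ∀ t, ∑ s ∈ Finset.range t, f s ≤ B) :
    ∑' t, ENNReal.ofReal (f t) ≤ ENNReal.ofReal B := by
  rw [ENNReal.tsum_eq_iSup_nat]
  refine iSup_le fun t => ?_
  rw [← ENNReal.ofReal_sum_of_nonneg fun s _ => hf s]
  exact ENNReal.ofReal_le_ofReal (h t)

lemma le_tsum_of_partial (f : ℕ → ℝ) (hf : ∀ t, 0 ≤ f t) (B K : ℝ)
    (h : ∀ t, B ≤ ∑ s ∈ Finset.range t, f s + K * f t) :
    ENNReal.ofReal B ≤ ∑' t, ENNReal.ofReal (f t) := by
  by_cases htop : ∑' t, ENNReal.ofReal (f t) = ⊤
  · rw [htop]; exact le_top
  · have hsum : Summable f := by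
      have := ENNReal.summable_toReal htop
      refine this.congr fun t => ?_
      rw [ENNReal.toReal_ofReal (hf t)]
    rw [← ENNReal.ofReal_tsum_of_nonneg hf hsum]
    refine ENNReal.ofReal_le_ofReal ?_
    have h0 := hsum.tendsto_atTop_zero
    have h1 := hsum.hasSum.tendsto_sum_nat
    have h2 : Filter.Tendsto (fun t => ∑ s ∈ Finset.range t, f s + K * f t) Filter.atTop
        (nhds (∑' t, f t + K * 0)) := h1.add (h0.const_mul K)
    rw [mul_zero, add_zero] at h2
    exact ge_of_tendsto' h2 h

end Pool.Agent.Helper12K9.MW
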